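import Pool.Agent.H30.FA.TA
import Pool.Agent.H30.FA.TC

/-!
Board fas_modules, rows NET, GAP, SPH, WDG.
-/

set_option autoImplicit false

open Topology Filter

namespace Pool.Agent.H54.FA

open Pool.Agent.H59 Pool.Agent.H48.FR Pool.Agent.H58.FL Pool.Agent.H30.FA

theorem pf_NET : T_NET := by
  intro A D R ε hε
  have hc : TotallyBounded (Metric.closedBall (0 : FF A D) R) :=
    (isCompact_closedBall (0 : FF A D) R).totallyBounded
  obtain ⟨t, ht, hcov⟩ := Metric.totallyBounded_iff.1 hc ε hε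
  refine ⟨ht.toFinset.card, fun i => (ht.toFinset.equivFin.symm i).1, ?_⟩
  intro ξ hξ
  have h1 : ξ ∈ Metric.closedBall (0 : FF A D) R := by
    rw [mem_closedBall_zero_iff]
    exact hξ
  have h2 := hcov h1
  rw [Set.mem_iUnion₂] at h2
  obtain ⟨y, hy, hyξ⟩ := h2
  refine ⟨ht.toFinset.equivFin ⟨y, ht.mem_toFinset.2 hy⟩, ?_⟩
  simp only [Equiv.symm_apply_apply]
  rw [Metric.mem_ball, dist_eq_norm, ← norm_neg, neg_sub] at hyξ
  exact hyξ.le

theorem pf_GAP (hBAS : T_BAS) : T_GAP := by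
  intro κ J _ k C y hanti hy hC
  obtain ⟨-, hr0, -, hsum, -, hmom, -, -, -, hpar, -⟩ := hBAS κ J (V (k + 1 + 2)) (k + 1 + 2) C
  obtain ⟨q, hq⟩ : ∃ q : Fin (k + 1 + 2) → ℝ, ∀ a, q a = ‖inner ℂ y (C.e a)‖ ^ 2 :=
    ⟨_, fun _ => rfl⟩
  have hq0 : ∀ a, 0 ≤ q a := fun a => by rw [hq]; positivity
  have hqs : ∑ a, q a = 1 := by
    have h := hpar y
    rw [hy] at h
    simp only [hq]
    linarith
  have h1 : 7 / 10 ≤ ∑ a, C.r a * q a := by
    simp only [hq]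
    rw [← hmom y]
    calc (7 / 10 : ℝ) = ∑ j, C.t j * (7 / 10) := by rw [← Finset.sum_mul, C.t_sum, one_mul]
      _ ≤ _ := by
        refine Finset.sum_le_sum fun j _ => ?_
        by_cases hj : C.t j = 0
        · rw [hj, zero_mul, zero_mul]
        · exact mul_le_mul_of_nonneg_left (hC j hj) (C.t_nonneg j)
  rw [Fin.sum_univ_succ] at h1 hqs hsum
  have h2 : ∀ i : Fin (k + 2), C.r i.succ ≤ C.r 1 := by
    intro i
    apply hanti
    rw [Fin.le_def]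
    simp
  have h3 : ∑ i : Fin (k + 2), C.r i.succ * q i.succ ≤ C.r 1 * ∑ i : Fin (k + 2), q i.succ := by
    rw [Finset.mul_sum]
    exact Finset.sum_le_sum fun i _ => mul_le_mul_of_nonneg_right (h2 i) (hq0 _)
  have h4 : C.r 1 ≤ ∑ i : Fin (k + 2), C.r i.succ := by
    have h5 := Finset.single_le_sum (f := fun i : Fin (k + 2) => C.r i.succ)
      (fun i _ => hr0 _) (Finset.mem_univ 0)
    exact h5
  have h6 : C.r 1 ≤ C.r 0 := hanti (Fin.zero_le _)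
  have h7 : ∑ i : Fin (k + 2), q i.succ = 1 - q 0 := by linarith
  rw [h7] at h3
  have h8 : 0 ≤ ∑ i : Fin (k + 2), q i.succ := Finset.sum_nonneg fun i _ => hq0 _
  have hr1 := hr0 1
  have hq00 := hq0 0
  rw [← hq 0]
  obtain ⟨a, ha⟩ : ∃ a, a = C.r 0 := ⟨_, rfl⟩
  obtain ⟨b, hb⟩ : ∃ b, b = C.r 1 := ⟨_, rfl⟩
  obtain ⟨c, hc⟩ : ∃ c, c = q 0 := ⟨_, rfl⟩
  rw [← ha] at h1 h6 hsum ⊢
  rw [← hb] at h3 h4 h6 hr1 ⊢
  rw [← hc] at h1 h3 h7 hq00 ⊢
  have hc1 : c ≤ 1 := by linarith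
  have hab : a + b ≤ 1 := by linarith
  have hmain : 7 / 10 ≤ a * c + b * (1 - c) := by linarith
  have ha7 : 7 / 10 ≤ a := by nlinarith
  constructor
  · linarith
  · by_contra hcon
    have hcon' : c < 1 / 2 := not_le.1 hcon
    nlinarith

theorem pf_SPH (hGRM : T_GRM) : T_SPH := by
  intro β hβ
  obtain ⟨m, hm⟩ : ∃ m, m = min β Real.pi := ⟨_, rfl⟩
  have hm0 : 0 < m := by rw [hm]; exact lt_min hβ Real.pi_pos
  have hmπ : m ≤ Real.pi := by rw [hm]; exact min_le_right _ _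
  have hmβ : m ≤ β := by rw [hm]; exact min_le_left _ _
  have hcos : Real.cos m < 1 := by
    have h := Real.strictAntiOn_cos (Set.mem_Icc.2 ⟨le_rfl, Real.pi_pos.le⟩)
      (Set.mem_Icc.2 ⟨hm0.le, hmπ⟩) hm0
    rwa [Real.cos_zero] at h
  refine ⟨min (1 / 3) ((1 - Real.cos m) * (2 / 3)), lt_min (by norm_num) (by nlinarith), ?_⟩
  intro E _ _ a b c ha hb hc hab hbc hca
  obtain ⟨s, hs⟩ : ∃ s, s = min (1 / 3) ((1 - Real.cos m) * (2 / 3)) := ⟨_, rfl⟩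
  rw [← hs] at hab hbc hca
  have hs1 : s ≤ 1 / 3 := by rw [hs]; exact min_le_left _ _
  have hs2 : s ≤ (1 - Real.cos m) * (2 / 3) := by rw [hs]; exact min_le_right _ _
  obtain ⟨B, hB⟩ : ∃ B : ℂ, B = inner ℂ a b * inner ℂ b c * inner ℂ c a := ⟨_, rfl⟩
  have hg := hGRM E a b c ha hb
  rw [hc, ← hB] at hg
  have hac : ‖inner ℂ a c‖ = ‖inner ℂ c a‖ := norm_inner_symm a c
  rw [hac] at hg
  have hre : 1 - 3 * s / 2 ≤ B.re := by nlinarith
  have hle : ∀ u v : E, ‖u‖ = 1 → ‖v‖ = 1 → ‖inner ℂ u v‖ ≤ 1 := by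
    intro u v hu hv
    have h := norm_inner_le_norm (𝕜 := ℂ) u v
    rwa [hu, hv, one_mul] at h
  have hB1 : ‖B‖ ≤ 1 := by
    rw [hB, norm_mul, norm_mul]
    have h1 := hle a b ha hb
    have h2 := hle b c hb hc
    have h3 := hle c a hc ha
    have h4 : ‖inner ℂ a b‖ * ‖inner ℂ b c‖ ≤ 1 := mul_le_one₀ h1 (norm_nonneg _) h2
    exact mul_le_one₀ h4 (norm_nonneg _) h3
  have hB0 : B ≠ 0 := by
    intro h
    rw [h, Complex.zero_re] at hre
    linarith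
  have hnB : 0 < ‖B‖ := norm_pos_iff.2 hB0
  have hcosB : Real.cos m ≤ Real.cos B.arg := by
    rw [Complex.cos_arg hB0, le_div_iff₀ hnB]
    have h1 : Real.cos m ≤ 1 - 3 * s / 2 := by linarith
    have h2 : 0 < 1 - 3 * s / 2 := by linarith
    calc Real.cos m * ‖B‖ ≤ (1 - 3 * s / 2) * ‖B‖ := mul_le_mul_of_nonneg_right h1 hnB.le
      _ ≤ (1 - 3 * s / 2) * 1 := mul_le_mul_of_nonneg_left hB1 h2.le
      _ ≤ B.re := by linarith
  unfold ar
  rw [← hB]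
  refine le_trans ?_ hmβ
  by_contra hcon
  have hcon' : m < |B.arg| := not_le.1 hcon
  have h1 := Real.strictAntiOn_cos (Set.mem_Icc.2 ⟨hm0.le, hmπ⟩)
    (Set.mem_Icc.2 ⟨abs_nonneg _, Complex.abs_arg_le_pi B⟩) hcon'
  rw [Real.cos_abs] at h1
  linarith

/-! ## The exterior square -/

section wdg

theorem wdg_prj {E : Type} [NormedAddCommGroup E] [InnerProductSpace ℂ E] (l l' h k : E)
    (hl : ‖l‖ = 1) (hl' : ‖l'‖ = 1) (h0 : inner ℂ l l' = 0) :
    inner ℂ (h - inner ℂ l h • l - inner ℂ l' h • l')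
      (k - inner ℂ l k • l - inner ℂ l' k • l') =
      inner ℂ h k - inner ℂ h l * inner ℂ l k - inner ℂ h l' * inner ℂ l' k := by
  have h1 : inner ℂ l l = (1 : ℂ) := by
    rw [inner_self_eq_norm_sq_to_K, hl]
    norm_num
  have h2 : inner ℂ l' l' = (1 : ℂ) := by
    rw [inner_self_eq_norm_sq_to_K, hl']
    norm_num
  have h3 : inner ℂ l' l = (0 : ℂ) := by
    rw [← inner_conj_symm, h0, map_zero]
  simp only [inner_sub_left, inner_sub_right, inner_smul_left, inner_smul_right,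
    inner_conj_symm, h0, h1, h2, h3]
  ring

theorem wdg_bessel {E : Type} [NormedAddCommGroup E] [InnerProductSpace ℂ E] (l l' h : E)
    (hl : ‖l‖ = 1) (hl' : ‖l'‖ = 1) (h0 : inner ℂ l l' = 0) (hh : ‖h‖ = 1) :
    ‖h - inner ℂ l h • l - inner ℂ l' h • l'‖ ^ 2 =
      1 - (‖inner ℂ h l‖ ^ 2 + ‖inner ℂ h l'‖ ^ 2) := by
  have h1 := wdg_prj l l' h h hl hl' h0
  have h2 : inner ℂ h h = (1 : ℂ) := by
    rw [inner_self_eq_norm_sq_to_K, hh]
    norm_num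
  have h3 : ∀ u : E, inner ℂ h u * inner ℂ u h = ((‖inner ℂ h u‖ ^ 2 : ℝ) : ℂ) := by
    intro u
    rw [← inner_conj_symm u h, Complex.mul_conj, Complex.normSq_eq_norm_sq]
  rw [h2, h3, h3, inner_self_eq_norm_sq_to_K] at h1
  have h4 := congrArg Complex.re h1
  simp only [Complex.sub_re, Complex.one_re, Complex.ofReal_re] at h4
  have h5 : ((‖h - inner ℂ l h • l - inner ℂ l' h • l'‖ : ℂ) ^ 2).re =
      ‖h - inner ℂ l h • l - inner ℂ l' h • l'‖ ^ 2 := by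
    rw [← Complex.ofReal_pow, Complex.ofReal_re]
  rw [← h5]
  rw [show 1 - (‖inner ℂ h l‖ ^ 2 + ‖inner ℂ h l'‖ ^ 2) =
    1 - ‖inner ℂ h l‖ ^ 2 - ‖inner ℂ h l'‖ ^ 2 by ring]
  exact h4

theorem wdg_lagrange (a b c d : ℂ) : ‖a * d - b * c‖ ^ 2 =
    (‖a‖ ^ 2 + ‖b‖ ^ 2) * (‖c‖ ^ 2 + ‖d‖ ^ 2) -
      ‖a * (starRingEnd ℂ) c + b * (starRingEnd ℂ) d‖ ^ 2 := by
  simp only [← Complex.normSq_eq_norm_sq, Complex.normSq_apply, Complex.sub_re, Complex.sub_im,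
    Complex.add_re, Complex.add_im, Complex.mul_re, Complex.mul_im, Complex.conj_re,
    Complex.conj_im]
  ring

theorem wdg_inner {d : ℕ} (h h' l l' : V d) :
    inner ℂ (wd h h') (wd l l') = inner ℂ h l * inner ℂ h' l' - inner ℂ h l' * inner ℂ h' l := by
  have hip : ∀ u v : V d, inner ℂ u v = ∑ a, (starRingEnd ℂ) (u a) * v a := by
    intro u v
    rw [PiLp.inner_apply]
    refine Finset.sum_congr rfl fun a _ => ?_
    rw [RCLike.inner_apply]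
    ring
  have hs2 : (((Real.sqrt 2)⁻¹ : ℝ) : ℂ) * (((Real.sqrt 2)⁻¹ : ℝ) : ℂ) = 1 / 2 := by
    rw [← Complex.ofReal_mul, ← mul_inv, Real.mul_self_sqrt (by norm_num)]
    norm_num
  have h1 : inner ℂ (wd h h') (wd l l') = ∑ a, ∑ b, (1 / 2 : ℂ) *
      (((starRingEnd ℂ) (h a) * l a) * ((starRingEnd ℂ) (h' b) * l' b) -
        ((starRingEnd ℂ) (h a) * l' a) * ((starRingEnd ℂ) (h' b) * l b) -
        ((starRingEnd ℂ) (h b) * l' b) * ((starRingEnd ℂ) (h' a) * l a) +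
        ((starRingEnd ℂ) (h b) * l b) * ((starRingEnd ℂ) (h' a) * l' a)) := by
    rw [PiLp.inner_apply, Fintype.sum_prod_type]
    refine Finset.sum_congr rfl fun a _ => Finset.sum_congr rfl fun b _ => ?_
    rw [RCLike.inner_apply]
    simp only [wd, map_mul, map_sub, Complex.conj_ofReal]
    linear_combination ((starRingEnd ℂ) (h a) * (starRingEnd ℂ) (h' b) -
      (starRingEnd ℂ) (h b) * (starRingEnd ℂ) (h' a)) * (l a * l' b - l b * l' a) * hs2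
  rw [h1, hip h l, hip h' l', hip h l', hip h' l, Finset.sum_mul_sum, Finset.sum_mul_sum]
  have h2 : ∑ a, ∑ b, ((starRingEnd ℂ) (h b) * l' b) * ((starRingEnd ℂ) (h' a) * l a) =
      ∑ a, ∑ b, ((starRingEnd ℂ) (h a) * l' a) * ((starRingEnd ℂ) (h' b) * l b) :=
    Finset.sum_comm
  have h3 : ∑ a, ∑ b, ((starRingEnd ℂ) (h b) * l b) * ((starRingEnd ℂ) (h' a) * l' a) =
      ∑ a, ∑ b, ((starRingEnd ℂ) (h a) * l a) * ((starRingEnd ℂ) (h' b) * l' b) :=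
    Finset.sum_comm
  simp only [mul_add, mul_sub, Finset.sum_add_distrib, Finset.sum_sub_distrib,
    ← Finset.mul_sum]
  simp only [← Finset.mul_sum] at h2 h3
  linear_combination (-(1 / 2 : ℂ)) * h2 + (1 / 2 : ℂ) * h3

end wdg

theorem pf_WDG : T_WDG := by
  intro d h h' l l' hh hh' h0 hl hl' l0
  have hone : ∀ u : V d, ‖u‖ = 1 → inner ℂ u u = (1 : ℂ) := by
    intro u hu
    rw [inner_self_eq_norm_sq_to_K, hu]
    norm_num
  refine ⟨?_, wdg_inner h h' l l', ?_⟩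
  · have h1 := wdg_inner h h' h h'
    rw [hone h hh, hone h' hh', h0, inner_self_eq_norm_sq_to_K, mul_one, zero_mul,
      sub_zero] at h1
    have h2' : ((‖wd h h'‖ ^ 2 : ℝ) : ℂ) = ((1 : ℝ) : ℂ) := by
      rw [Complex.ofReal_pow, Complex.ofReal_one]
      exact h1
    have h2 : ‖wd h h'‖ ^ 2 = 1 := Complex.ofReal_injective h2'
    have h3 : 0 ≤ ‖wd h h'‖ := norm_nonneg _
    nlinarith
  · intro s hs
    have hP := wdg_bessel l l' h hl hl' l0 hh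
    have hR := wdg_bessel l l' h' hl hl' l0 hh'
    have hQ := wdg_bessel h h' l hh hh' h0 hl
    have hsy : ∀ u v : V d, ‖inner ℂ u v‖ = ‖inner ℂ v u‖ := fun u v => norm_inner_symm u v
    rw [hsy l h, hsy l h'] at hQ
    have hcs : ‖inner ℂ h l * (starRingEnd ℂ) (inner ℂ h' l) +
        inner ℂ h l' * (starRingEnd ℂ) (inner ℂ h' l')‖ ^ 2 ≤
        (1 - (‖inner ℂ h l‖ ^ 2 + ‖inner ℂ h l'‖ ^ 2)) *
          (1 - (‖inner ℂ h' l‖ ^ 2 + ‖inner ℂ h' l'‖ ^ 2)) := by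
      rw [← hP, ← hR, ← mul_pow]
      apply pow_le_pow_left₀ (norm_nonneg _)
      have h1 := norm_inner_le_norm (𝕜 := ℂ) (h - inner ℂ l h • l - inner ℂ l' h • l')
        (h' - inner ℂ l h' • l - inner ℂ l' h' • l')
      rw [wdg_prj l l' h h' hl hl' l0, h0] at h1
      rw [inner_conj_symm, inner_conj_symm]
      refine le_trans (le_of_eq ?_) h1
      rw [← norm_neg]
      congr 1
      ring
    have hPn : 0 ≤ 1 - (‖inner ℂ h l‖ ^ 2 + ‖inner ℂ h l'‖ ^ 2) := by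
      rw [← hP]
      positivity
    have hRn : 0 ≤ 1 - (‖inner ℂ h' l‖ ^ 2 + ‖inner ℂ h' l'‖ ^ 2) := by
      rw [← hR]
      positivity
    have hQn : 0 ≤ 1 - (‖inner ℂ h l‖ ^ 2 + ‖inner ℂ h' l‖ ^ 2) := by
      rw [← hQ]
      positivity
    constructor
    · rw [wdg_inner, wdg_lagrange]
      nlinarith
    · intro h11
      refine ⟨?_, ?_, ?_⟩ <;> linarith

end Pool.Agent.H54.FA
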